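import Mathlib
import Pool.Agent.Helper43_HAM.Stmts

/-!
# HAM, modules CON and GUE
-/

set_option autoImplicit false

namespace Pool.Agent.HAM.H37

open Pool.Agent.HAM

section

variable {Ω : Type} [Fintype Ω] [DecidableEq Ω]

/-- lists of constants -/
def TrK (Ω : Type) [Fintype Ω] [DecidableEq Ω] (s s' : List (Fin 3)) : Prop :=
  Tr (id : Ω → Ω) (s.map cw) (s'.map cw)

lemma trK_trans (hTco : TcoStmt) {s s' s'' : List (Fin 3)} (h : TrK Ω s s') (h' : TrK Ω s' s'') :
    TrK Ω s s'' := by
  have := hTco Ω Ω Ω id id _ _ _ h h'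
  exact this

lemma trK_perm (hTpe : TpeStmt) {s s' : List (Fin 3)} (h : s.Perm s') (h2 : 2 ≤ s.length) :
    TrK Ω s s' := by
  apply hTpe Ω _ _ (h.map _)
  rw [List.length_map]
  exact h2

lemma app_vtx (i a b : ℕ) (F : List (Fin 3) → ZMod 2) (u : List (Fin 3)) :
    app [.vtx i a b] F u = ∑ v : Fin 3, if v ∈ (u.drop i).take a then 0 else
      F (u.take i ++ List.replicate b v ++ u.drop (i + a)) := rfl

lemma sum_third (x y z : Fin 3) (hxy : x ≠ y) (hxz : z ≠ x) (hyz : z ≠ y)
    (G : Fin 3 → ZMod 2) : (∑ v : Fin 3, if v ∈ [x, y] then 0 else G v) = G z := by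
  rw [Finset.sum_eq_single z]
  · rw [if_neg]
    simp [hxz, hyz]
  · intro v _ hv
    rw [if_pos]
    revert hxy hxz hyz hv
    revert x y z v
    decide
  · intro h
    exact absurd (Finset.mem_univ z) h

lemma sum_one (x : Fin 3) (G : Fin 3 → ZMod 2) (h : ∑ v : Fin 3, G v = 0) :
    (∑ v : Fin 3, if v ∈ [x, x] then 0 else G v) = G x := by
  have h1 : (∑ v : Fin 3, if v ∈ [x, x] then 0 else G v) + G x = ∑ v : Fin 3, G v := by
    have h2 : G x = ∑ v : Fin 3, if v = x then G v else 0 := by
      rw [Finset.sum_ite_eq' Finset.univ x G, if_pos (Finset.mem_univ x)]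
    rw [h2, ← Finset.sum_add_distrib]
    apply Finset.sum_congr rfl
    intro v _
    by_cases hv : v = x
    · simp [hv]
    · simp [hv]
  rw [h] at h1
  have h3 : (∑ v : Fin 3, if v ∈ [x, x] then 0 else G v) = -G x := eq_neg_of_add_eq_zero_left h1
  rw [h3]
  exact ZMod.neg_eq_self_mod_two _

lemma merge_ne {x y z : Fin 3} (hxy : x ≠ y) (hxz : z ≠ x) (hyz : z ≠ y) (b : ℕ) (hb : 1 ≤ b)
    (r : List (Fin 3)) (hr : r ≠ []) : TrK Ω (x :: y :: r) (List.replicate b z ++ r) := by
  have hr' : 0 < r.length := List.length_pos_iff.2 hr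
  refine ⟨[.vtx 0 2 b], ?_, ?_, ?_⟩
  · intro k hk
    simp at hk
  · simp only [legal, List.length_map, List.length_cons, List.length_append, List.length_replicate]
    omega
  · intro F _ l r₁ ω
    have h1 : shift l.length [.vtx 0 2 b] = [.vtx l.length 2 b] := by
      simp [shift]
    have h2 : ((x :: y :: r).map cw).map (fun f : Ω → Fin 3 => f ω) = x :: y :: r := by
      simp [cw, Function.comp_def]
    have h3 : ((List.replicate b z ++ r).map cw).map (fun f : Ω → Fin 3 => f ω) =
        List.replicate b z ++ r := by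
      rw [List.map_map]
      simp [cw, Function.comp_def]
    have h4 : (∑ ω' : Ω, if id ω' = ω then
        F (l ++ (((List.replicate b z ++ r).map cw).map (fun f : Ω → Fin 3 => f ω') ++ r₁)) else 0)
        = F (l ++ (List.replicate b z ++ r ++ r₁)) := by
      simp only [id_eq]
      rw [Finset.sum_eq_single ω]
      · rw [if_pos rfl, h3]
      · intro ω' _ hne
        rw [if_neg hne]
      · intro h
        exact absurd (Finset.mem_univ ω) h
    rw [h4, h1, h2, app_vtx]
    have h5 : (l ++ (x :: y :: r ++ r₁)).drop l.length = x :: y :: r ++ r₁ := by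
      simp
    have h6 : (l ++ (x :: y :: r ++ r₁)).take l.length = l := by
      simp
    have h7 : (l ++ (x :: y :: r ++ r₁)).drop (l.length + 2) = r ++ r₁ := by
      rw [← List.drop_drop, h5]
      rfl
    rw [h5, h6, h7]
    have h8 : (x :: y :: r ++ r₁).take 2 = [x, y] := rfl
    rw [h8, sum_third x y z hxy hxz hyz (fun v => F (l ++ List.replicate b v ++ (r ++ r₁)))]
    congr 1
    simp

lemma merge_eq (x : Fin 3) (r : List (Fin 3)) (hr : r ≠ []) : TrK Ω (x :: x :: r) (x :: r) := by
  have hr' : 0 < r.length := List.length_pos_iff.2 hr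
  refine ⟨[.vtx 0 2 1], ?_, ?_, ?_⟩
  · intro k hk
    simp at hk
  · simp only [legal, List.length_map, List.length_cons]
    omega
  · intro F hF l r₁ ω
    have h1 : shift l.length [.vtx 0 2 1] = [.vtx l.length 2 1] := by
      simp [shift]
    have h2 : ((x :: x :: r).map cw).map (fun f : Ω → Fin 3 => f ω) = x :: x :: r := by
      simp [cw, Function.comp_def]
    have h3 : ((x :: r).map cw).map (fun f : Ω → Fin 3 => f ω) = x :: r := by
      simp [cw, Function.comp_def]
    have h4 : (∑ ω' : Ω, if id ω' = ω then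
        F (l ++ (((x :: r).map cw).map (fun f : Ω → Fin 3 => f ω') ++ r₁)) else 0)
        = F (l ++ (x :: r ++ r₁)) := by
      simp only [id_eq]
      rw [Finset.sum_eq_single ω]
      · rw [if_pos rfl, h3]
      · intro ω' _ hne
        rw [if_neg hne]
      · intro h
        exact absurd (Finset.mem_univ ω) h
    rw [h4, h1, h2, app_vtx]
    have h5 : (l ++ (x :: x :: r ++ r₁)).drop l.length = x :: x :: r ++ r₁ := by
      simp
    have h6 : (l ++ (x :: x :: r ++ r₁)).take l.length = l := by
      simp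
    have h7 : (l ++ (x :: x :: r ++ r₁)).drop (l.length + 2) = r ++ r₁ := by
      rw [← List.drop_drop, h5]
      rfl
    rw [h5, h6, h7]
    have h8 : (x :: x :: r ++ r₁).take 2 = [x, x] := rfl
    have h9 : ∑ v : Fin 3, F (l ++ List.replicate 1 v ++ (r ++ r₁)) = 0 := by
      have := hF l (r ++ r₁)
      simpa using this
    rw [h8, sum_one x (fun v => F (l ++ List.replicate 1 v ++ (r ++ r₁))) h9]
    congr 1
    simp

/-- a step on lists up to permutations -/
lemma step_ne (hTco : TcoStmt) (hTpe : TpeStmt) (l l' : List (Fin 3)) (x y z : Fin 3) (b : ℕ)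
    (r : List (Fin 3)) (hxy : x ≠ y) (hxz : z ≠ x) (hyz : z ≠ y) (hb : 1 ≤ b) (hr : r ≠ [])
    (hl : l.Perm (x :: y :: r)) (hl' : (List.replicate b z ++ r).Perm l') (c : List (Fin 3)) :
    TrK Ω (l ++ c) (l' ++ c) := by
  have hr' : 0 < r.length := List.length_pos_iff.2 hr
  have hlen : l.length = r.length + 2 := by
    rw [hl.length_eq]
    rfl
  have h1 : TrK Ω (l ++ c) (x :: y :: (r ++ c)) :=
    trK_perm hTpe (hl.append_right c) (by rw [List.length_append]; omega)
  have h2 : TrK Ω (x :: y :: (r ++ c)) (List.replicate b z ++ (r ++ c)) :=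
    merge_ne hxy hxz hyz b hb (r ++ c) (by simp [hr])
  have h3 : TrK Ω (List.replicate b z ++ (r ++ c)) (l' ++ c) := by
    apply trK_perm hTpe
    · rw [← List.append_assoc]
      exact hl'.append_right c
    · rw [List.length_append, List.length_append, List.length_replicate]
      omega
  exact trK_trans hTco h1 (trK_trans hTco h2 h3)

lemma step_eq (hTco : TcoStmt) (hTpe : TpeStmt) (l l' : List (Fin 3)) (x : Fin 3)
    (r : List (Fin 3)) (hr : r ≠ [])
    (hl : l.Perm (x :: x :: r)) (hl' : (x :: r).Perm l') (c : List (Fin 3)) :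
    TrK Ω (l ++ c) (l' ++ c) := by
  have hr' : 0 < r.length := List.length_pos_iff.2 hr
  have hlen : l.length = r.length + 2 := by
    rw [hl.length_eq]
    rfl
  have h1 : TrK Ω (l ++ c) (x :: x :: (r ++ c)) :=
    trK_perm hTpe (hl.append_right c) (by rw [List.length_append]; omega)
  have h2 : TrK Ω (x :: x :: (r ++ c)) (x :: (r ++ c)) :=
    merge_eq x (r ++ c) (by simp [hr])
  have h3 : TrK Ω (x :: (r ++ c)) (l' ++ c) := by
    apply trK_perm hTpe
    · exact hl'.append_right c
    · rw [List.length_cons, List.length_append]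
      omega
  exact trK_trans hTco h1 (trK_trans hTco h2 h3)

/-- delete one constant -/
lemma del_one (hTco : TcoStmt) (hTpe : TpeStmt) (x : Fin 3) (c : List (Fin 3)) :
    TrK Ω ([1, 2, 2, x] ++ c) ([1, 2, 2] ++ c) := by
  fin_cases x
  · -- 0,1,2,2 -> 0,0,2 -> 0,1,1 -> 1,2,2
    have h1 : TrK Ω ([1, 2, 2, 0] ++ c) ([0, 0, 2] ++ c) :=
      step_ne hTco hTpe _ _ 1 2 0 1 [0, 2] (by decide) (by decide) (by decide) (by decide)
        (by decide) (by decide) (by decide) c
    have h2 : TrK Ω ([0, 0, 2] ++ c) ([0, 1, 1] ++ c) :=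
      step_ne hTco hTpe _ _ 0 2 1 2 [0] (by decide) (by decide) (by decide) (by decide)
        (by decide) (by decide) (by decide) c
    have h3 : TrK Ω ([0, 1, 1] ++ c) ([1, 2, 2] ++ c) :=
      step_ne hTco hTpe _ _ 0 1 2 2 [1] (by decide) (by decide) (by decide) (by decide)
        (by decide) (by decide) (by decide) c
    exact trK_trans hTco h1 (trK_trans hTco h2 h3)
  · exact step_eq hTco hTpe [1, 2, 2, 1] [1, 2, 2] 1 [2, 2] (by decide) (by decide) (by decide) c
  · exact step_eq hTco hTpe [1, 2, 2, 2] [1, 2, 2] 2 [1, 2] (by decide) (by decide) (by decide) c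

/-- create one constant -/
lemma add_one (hTco : TcoStmt) (hTpe : TpeStmt) (x : Fin 3) (c : List (Fin 3)) :
    TrK Ω ([1, 2, 2] ++ c) ([1, 2, 2, x] ++ c) := by
  fin_cases x
  · have h1 : TrK Ω ([1, 2, 2] ++ c) ([0, 0, 0, 2] ++ c) :=
      step_ne hTco hTpe _ _ 1 2 0 3 [2] (by decide) (by decide) (by decide) (by decide)
        (by decide) (by decide) (by decide) c
    have h2 : TrK Ω ([0, 0, 0, 2] ++ c) ([0, 0, 1, 1] ++ c) :=
      step_ne hTco hTpe _ _ 0 2 1 2 [0, 0] (by decide) (by decide) (by decide) (by decide)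
        (by decide) (by decide) (by decide) c
    have h3 : TrK Ω ([0, 0, 1, 1] ++ c) ([1, 2, 2, 0] ++ c) :=
      step_ne hTco hTpe _ _ 0 1 2 2 [0, 1] (by decide) (by decide) (by decide) (by decide)
        (by decide) (by decide) (by decide) c
    exact trK_trans hTco h1 (trK_trans hTco h2 h3)
  · have h1 : TrK Ω ([1, 2, 2] ++ c) ([0, 0, 2] ++ c) :=
      step_ne hTco hTpe _ _ 1 2 0 2 [2] (by decide) (by decide) (by decide) (by decide)
        (by decide) (by decide) (by decide) c
    have h2 : TrK Ω ([0, 0, 2] ++ c) ([0, 1, 1, 1] ++ c) :=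
      step_ne hTco hTpe _ _ 0 2 1 3 [0] (by decide) (by decide) (by decide) (by decide)
        (by decide) (by decide) (by decide) c
    have h3 : TrK Ω ([0, 1, 1, 1] ++ c) ([1, 2, 2, 1] ++ c) :=
      step_ne hTco hTpe _ _ 0 1 2 2 [1, 1] (by decide) (by decide) (by decide) (by decide)
        (by decide) (by decide) (by decide) c
    exact trK_trans hTco h1 (trK_trans hTco h2 h3)
  · have h1 : TrK Ω ([1, 2, 2] ++ c) ([0, 0, 2] ++ c) :=
      step_ne hTco hTpe _ _ 1 2 0 2 [2] (by decide) (by decide) (by decide) (by decide)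
        (by decide) (by decide) (by decide) c
    have h2 : TrK Ω ([0, 0, 2] ++ c) ([0, 1, 1] ++ c) :=
      step_ne hTco hTpe _ _ 0 2 1 2 [0] (by decide) (by decide) (by decide) (by decide)
        (by decide) (by decide) (by decide) c
    have h3 : TrK Ω ([0, 1, 1] ++ c) ([1, 2, 2, 2] ++ c) :=
      step_ne hTco hTpe _ _ 0 1 2 3 [1] (by decide) (by decide) (by decide) (by decide)
        (by decide) (by decide) (by decide) c
    exact trK_trans hTco h1 (trK_trans hTco h2 h3)

lemma trK_refl (hTpe : TpeStmt) (s : List (Fin 3)) (h : 2 ≤ s.length) : TrK Ω s s :=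
  trK_perm hTpe (List.Perm.refl s) h

lemma del_all (hTco : TcoStmt) (hTpe : TpeStmt) (c : List (Fin 3)) :
    TrK Ω ([1, 2, 2] ++ c) [1, 2, 2] := by
  induction c with
  | nil => exact trK_refl hTpe _ (by decide)
  | cons x c ih => exact trK_trans hTco (del_one hTco hTpe x c) ih

lemma add_all (hTco : TcoStmt) (hTpe : TpeStmt) (c : List (Fin 3)) :
    TrK Ω [1, 2, 2] ([1, 2, 2] ++ c) := by
  induction c with
  | nil => exact trK_refl hTpe _ (by decide)
  | cons x c ih => exact trK_trans hTco ih (add_one hTco hTpe x c)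

end

/-- CON. -/
theorem con (hTco : TcoStmt) (_hTcx : TcxStmt) (hTpe : TpeStmt) : ConStmt := by
  intro Ω _ _ c c'
  have h : TrK Ω ([1, 2, 2] ++ c) ([1, 2, 2] ++ c') :=
    trK_trans hTco (del_all hTco hTpe c) (add_all hTco hTpe c')
  unfold TrK at h
  rw [List.map_append, List.map_append] at h
  exact h

/-- GUE. -/
theorem gue (hTco : TcoStmt) (_hTcx : TcxStmt) (_hTpe : TpeStmt) (hCon : ConStmt) : GueStmt := by
  intro Ω _ _
  have h1 : Tr (id : Ω → Ω) refs (refs ++ [cw 1]) := by
    have := hCon Ω [] [1]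
    simpa using this
  have h2 : Tr (Prod.fst : Ω × Bool → Ω) (refs ++ [cw 1]) (refs ++ [bit Prod.snd]) := by
    refine ⟨[.vtx 3 1 1], ?_, ?_, ?_⟩
    · intro k hk
      simp at hk
    · simp [legal, refs]
    · intro F _ l r ω
      have e1 : shift l.length [.vtx 3 1 1] = [.vtx (3 + l.length) 1 1] := by
        simp [shift]
      have e2 : ((refs ++ [cw 1]).map (fun f : Ω → Fin 3 => f ω)) = [1, 2, 2, 1] := by
        simp [cw, refs]
      have e3 : ∀ ω' : Ω × Bool, ((refs ++ [bit Prod.snd]).map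
          (fun f : Ω × Bool → Fin 3 => f ω')) = [1, 2, 2, if ω'.2 then 2 else 0] := by
        intro ω'
        simp [cw, refs, bit]
      rw [e1, e2, app_vtx]
      have h5 : (l ++ ([1, 2, 2, 1] ++ r)).drop (3 + l.length) = 1 :: r := by
        rw [add_comm, ← List.drop_drop]
        simp
      have h6 : (l ++ ([1, 2, 2, 1] ++ r)).take (3 + l.length) = l ++ [1, 2, 2] := by
        rw [add_comm, List.take_length_add_append]
        rfl
      have h7 : (l ++ ([1, 2, 2, 1] ++ r)).drop (3 + l.length + 1) = r := by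
        rw [← List.drop_drop, h5]
        rfl
      rw [h5, h6, h7]
      have h8 : (1 :: r).take 1 = [(1 : Fin 3)] := rfl
      rw [h8, Fintype.sum_prod_type]
      have h9 : ∀ x : Ω, (∑ y : Bool, if Prod.fst (x, y) = ω then
          F (l ++ ((refs ++ [bit Prod.snd]).map (fun f : Ω × Bool → Fin 3 => f (x, y)) ++ r))
          else 0) = if x = ω then F (l ++ ([1, 2, 2, 2] ++ r)) + F (l ++ ([1, 2, 2, 0] ++ r))
          else 0 := by
        intro x
        rw [Fintype.sum_bool, e3, e3]
        by_cases hx : x = ω <;> simp [hx]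
      rw [Finset.sum_congr rfl (fun x _ => h9 x), Finset.sum_ite_eq' Finset.univ ω,
        if_pos (Finset.mem_univ ω)]
      rw [Fin.sum_univ_three]
      simp
      ring
  have h3 := hTco Ω Ω (Ω × Bool) id Prod.fst _ _ _ h1 h2
  exact h3

end Pool.Agent.HAM.H37
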